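import Pool.Agent.Y142.ZO.Stm

set_option autoImplicit false
set_option linter.unusedSectionVars false

/-! Task APP of project ZO (helper142): approximation of tangent vectors by group elements. -/

open Matrix Polynomial Filter Topology

namespace Pool.Agent.Y815.ZO

open Pool.Agent.Y142.ZO

section sq
variable {ℓ : ℕ} [Fact ℓ.Prime]

/-- The set of nonzero squares is open. -/
theorem isOpen_sq : IsOpen {z : ℚ_[ℓ] | z ≠ 0 ∧ IsSquare z} := by
  rw [isOpen_iff_mem_nhds]
  rintro z ⟨hz, a, ha⟩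
  have ha0 : a ≠ 0 := by rintro rfl; simp at ha; exact hz ha
  have h1 : HasStrictDerivAt (fun x : ℚ_[ℓ] => x * x) (1 * a + a * 1) a :=
    (hasStrictDerivAt_id a).mul (hasStrictDerivAt_id a)
  have h2 : (1 * a + a * 1 : ℚ_[ℓ]) ≠ 0 := by
    rw [one_mul, mul_one, ← two_mul]
    exact mul_ne_zero two_ne_zero ha0
  have h3 := h1.map_nhds_eq h2
  rw [ha]
  have h4 : ∀ᶠ x in 𝓝 (a * a), x ≠ 0 := (isOpen_ne.mem_nhds (by rw [← ha]; exact hz))
  have h5 : ∀ᶠ x in 𝓝 (a * a), IsSquare x := by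
    have : ∀ᶠ x in map (fun x : ℚ_[ℓ] => x * x) (𝓝 a), IsSquare x := by
      rw [eventually_map]
      exact Eventually.of_forall fun x => ⟨x, rfl⟩
    rwa [h3] at this
  filter_upwards [h4, h5] with x hx1 hx2
  exact ⟨hx1, hx2⟩

end sq

section cont
variable {K : Type*} [Field K] [TopologicalSpace K] [IsTopologicalRing K] {N : ℕ}

theorem continuous_eval_derivative_charpoly (t : K) :
    Continuous fun M : Matrix (Fin N) (Fin N) K => (derivative M.charpoly).eval t := by
  have h : (fun M : Matrix (Fin N) (Fin N) K => (derivative M.charpoly).eval t) = fun M =>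
      MvPolynomial.eval (fun p : Fin N × Fin N => M p.1 p.2)
        ((derivative (Matrix.charpoly.univ K (Fin N))).eval (MvPolynomial.C t)) := by
    funext M
    have h1 : (Matrix.charpoly.univ K (Fin N)).map
        (MvPolynomial.eval (fun p : Fin N × Fin N => M p.1 p.2)) = M.charpoly :=
      Matrix.charpoly.univ_map_eval₂Hom (Fin N) (RingHom.id K) (fun p => M p.1 p.2)
    rw [← h1, Polynomial.derivative_map, Polynomial.eval_map]
    rw [← Polynomial.eval₂_at_apply]
    rw [MvPolynomial.eval_C]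
  rw [h]
  exact (MvPolynomial.continuous_eval _).comp (by fun_prop)

theorem continuous_eval_charpoly (t : K) :
    Continuous fun M : Matrix (Fin N) (Fin N) K => M.charpoly.eval t := by
  simp only [Matrix.eval_charpoly]
  fun_prop

end cont

section alg
variable {K : Type} [Field K] [CharZero K] {N : ℕ}

theorem det_sq_of_isom {B h : Matrix (Fin N) (Fin N) K} (hB : B.det ≠ 0) (hh : Isom B h) :
    h.det = 1 ∨ h.det = -1 := by
  have h1 := congrArg Matrix.det hh
  rw [det_mul, det_mul, det_transpose] at h1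
  have h2 : (h.det - 1) * (h.det + 1) * B.det = 0 := by linear_combination h1
  rcases mul_eq_zero.1 h2 with h3 | h3
  · rcases mul_eq_zero.1 h3 with h4 | h4
    · left; linear_combination h4
    · right; linear_combination h4
  · exact absurd h3 hB

theorem det_one_sub_of_isom (hN : Odd N) {B h : Matrix (Fin N) (Fin N) K} (hB : B.det ≠ 0)
    (hh : Isom B h) (hd : h.det = 1) : (1 - h).det = 0 := by
  have h1 : (1 - hᵀ) * B * h = B * (h - 1) := by
    rw [sub_mul, sub_mul, one_mul, mul_sub, mul_one, show hᵀ * B * h = B from hh]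
  have h2 := congrArg Matrix.det h1
  rw [det_mul, det_mul, det_mul, hd, mul_one] at h2
  have h3 : (1 - hᵀ).det = (1 - h).det := by
    rw [← det_transpose (1 - h), transpose_sub, transpose_one]
  have h4 : (h - 1).det = -(1 - h).det := by
    rw [← neg_sub 1 h, det_neg, Fintype.card_fin, hN.neg_one_pow]
    ring
  rw [h3, h4] at h2
  have h5 : 2 * B.det * (1 - h).det = 0 := by linear_combination h2
  rcases mul_eq_zero.1 h5 with h6 | h6
  · exact absurd h6 (mul_ne_zero two_ne_zero hB)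
  · exact h6

theorem charpoly_factor {h : Matrix (Fin N) (Fin N) K} (h1 : (1 - h).det = 0) :
    ∃ Q : K[X], h.charpoly = (X - 1) * Q ∧ (derivative h.charpoly).eval 1 = Q.eval 1 ∧
      h.charpoly.eval (-1) = -2 * Q.eval (-1) := by
  have h2 : h.charpoly.IsRoot 1 := by
    rw [IsRoot.def, eval_charpoly, ← h1, map_one]
  obtain ⟨Q, hQ⟩ := dvd_iff_isRoot.2 h2
  rw [map_one] at hQ
  have e1 : (derivative ((X - 1) * Q)).eval 1 = Q.eval 1 := by
    simp [derivative_mul]
  have e2 : ((X - 1) * Q).eval (-1) = -2 * Q.eval (-1) := by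
    rw [eval_mul, eval_sub, eval_X, eval_one]
    ring
  refine ⟨Q, hQ, ?_, ?_⟩
  · rw [hQ, e1]
  · rw [hQ, e2]

theorem charpoly_scale (A : Matrix (Fin N) (Fin N) K) (c : K) :
    c * (derivative (1 + c • A).charpoly).eval 1 =
      c ^ N * (derivative A.charpoly).eval 0 := by
  have h1 : (1 + c • A).charpoly.comp (C c * X + 1) = C (c ^ N) * A.charpoly := by
    apply Polynomial.funext
    intro t
    rw [eval_comp, eval_charpoly, eval_mul, eval_C, eval_charpoly]
    have h2 : (Matrix.scalar (Fin N)) (eval t (C c * X + 1)) - (1 + c • A) =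
        c • ((Matrix.scalar (Fin N)) t - A) := by
      ext i j
      by_cases hij : i = j
      · subst hij; simp; ring
      · simp [hij]
    rw [h2, det_smul, Fintype.card_fin]
  have h3 := congrArg (fun p => (derivative p).eval 0) h1
  simp only [derivative_comp, eval_mul, eval_comp, derivative_mul, derivative_C] at h3
  simpa using h3

/-- no eigenvalue of a matrix is a nontrivial root of unity -/
theorem coprime_of_fixed {h : Matrix (Fin N) (Fin N) K} {Q : K[X]}
    (hQ : h.charpoly = (X - 1) * Q) (hQ1 : Q.eval 1 ≠ 0)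
    (hfix : ∀ n : ℕ, 0 < n → ∀ x, h ^ n *ᵥ x = x → h *ᵥ x = x) (n : ℕ) (hn : 0 < n) :
    IsCoprime Q (X ^ n - 1) := by
  rw [Polynomial.isCoprime_iff_aeval_ne_zero_of_isAlgClosed K (AlgebraicClosure K)]
  intro ζ
  by_contra hcon
  push Not at hcon
  obtain ⟨h1, h2⟩ := hcon
  have hζn : ζ ^ n = 1 := by
    rw [map_sub, map_pow, aeval_X, map_one, sub_eq_zero] at h2
    exact h2
  have hζ1 : ζ ≠ 1 := by
    rintro rfl
    apply hQ1
    have h3 : (algebraMap K (AlgebraicClosure K)) (Q.eval 1) = 0 := by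
      rw [← h1, aeval_def, ← map_one (algebraMap K (AlgebraicClosure K)), eval₂_at_apply]
    exact (map_eq_zero _).1 h3
  set f := algebraMap K (AlgebraicClosure K) with hf
  have h3 : (Matrix.scalar (Fin N) ζ - h.map f).det = 0 := by
    rw [← eval_charpoly, Matrix.charpoly_map, eval_map, hQ, eval₂_mul]
    rw [aeval_def] at h1
    rw [h1, mul_zero]
  obtain ⟨x, hx0, hx⟩ := Matrix.exists_mulVec_eq_zero_iff.2 h3
  have hx' : h.map f *ᵥ x = ζ • x := by
    rw [sub_mulVec, sub_eq_zero] at hx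
    rw [← hx]
    ext i
    simp
  have hpow : ∀ i : ℕ, (h.map f) ^ i *ᵥ x = ζ ^ i • x := by
    intro i
    induction i with
    | zero => simp
    | succ i ih =>
      rw [pow_succ', ← mulVec_mulVec, ih, mulVec_smul, hx', smul_smul, pow_succ]
  set U : Matrix (Fin N) (Fin N) K := ∑ i ∈ Finset.range n, h ^ i with hU
  have hUx : U.map f *ᵥ x = 0 := by
    have h4 : U.map f = ∑ i ∈ Finset.range n, (h.map f) ^ i := by
      rw [hU]
      have := map_sum (f.mapMatrix (m := Fin N)) (fun i => h ^ i) (Finset.range n)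
      simp only [map_pow] at this
      exact this
    rw [h4, sum_mulVec]
    simp_rw [hpow]
    rw [← Finset.sum_smul]
    have h5 : (∑ i ∈ Finset.range n, ζ ^ i) = 0 := by
      have h6 := geom_sum_mul ζ n
      rw [hζn, sub_self] at h6
      rcases mul_eq_zero.1 h6 with h7 | h7
      · exact h7
      · exact absurd (sub_eq_zero.1 h7) hζ1
    rw [h5, zero_smul]
  have hdet : (U.map f).det = 0 := Matrix.exists_mulVec_eq_zero_iff.1 ⟨x, hx0, hUx⟩
  have hdet' : U.det = 0 := by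
    have h6 : f U.det = 0 := by
      rw [RingHom.map_det]
      exact hdet
    exact (map_eq_zero _).1 h6
  obtain ⟨y, hy0, hy⟩ := Matrix.exists_mulVec_eq_zero_iff.2 hdet'
  have h7 : h ^ n *ᵥ y = y := by
    have h8 : (h - 1) * U = h ^ n - 1 := mul_geom_sum h n
    have h9 : (h ^ n - 1) *ᵥ y = 0 := by
      rw [← h8, ← mulVec_mulVec, hy, mulVec_zero]
    rw [sub_mulVec, one_mulVec, sub_eq_zero] at h9
    exact h9
  have h10 := hfix n hn y h7
  have h11 : ∀ i : ℕ, h ^ i *ᵥ y = y := by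
    intro i
    induction i with
    | zero => simp
    | succ i ih => rw [pow_succ', ← mulVec_mulVec, ih, h10]
  rw [hU, sum_mulVec] at hy
  simp_rw [h11] at hy
  rw [Finset.sum_const, Finset.card_range] at hy
  rcases smul_eq_zero.1 hy with h12 | h12
  · omega
  · exact hy0 h12

end alg

section main
variable {ℓ : ℕ} [Fact ℓ.Prime] {N : ℕ}

theorem t (h1 : S_DET) (h2 : S_QZ) (h3 : S_LOG) : S_APP := by
  intro ℓ _ N hN G _ _ _ ρ hρ B hBs hB hiso T y hT hy hyy
  obtain ⟨s, hs⟩ := hT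
  have hℓ0 : (ℓ : ℚ_[ℓ]) ≠ 0 := by
    exact_mod_cast (Fact.out : ℓ.Prime).ne_zero
  set A : ℕ → Matrix (Fin N) (Fin N) ℚ_[ℓ] := fun n => ((ℓ : ℚ_[ℓ]) ^ n)⁻¹ • (ρ (s n) - 1) with hA
  have hρA : ∀ n, ρ (s n) = 1 + (ℓ : ℚ_[ℓ]) ^ n • A n := by
    intro n
    rw [hA]
    simp only
    rw [smul_smul, mul_inv_cancel₀ (pow_ne_zero _ hℓ0), one_smul]
    abel
  have hlim0 : Tendsto (fun n : ℕ => (ℓ : ℚ_[ℓ]) ^ n) atTop (𝓝 0) := by
    apply tendsto_pow_atTop_nhds_zero_of_norm_lt_one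
    exact Padic.norm_p_lt_one
  have hlim1 : Tendsto (fun n => ρ (s n)) atTop (𝓝 1) := by
    have h4 : Tendsto (fun n => 1 + (ℓ : ℚ_[ℓ]) ^ n • A n) atTop (𝓝 (1 + (0 : ℚ_[ℓ]) • T)) :=
      tendsto_const_nhds.add (hlim0.smul hs)
    rw [zero_smul, add_zero] at h4
    refine h4.congr fun n => (hρA n).symm
  -- `T` is skew
  have hskew : Skew B T := by
    have h4 : ∀ n, (A n)ᵀ * B + B * A n + (ℓ : ℚ_[ℓ]) ^ n • ((A n)ᵀ * B * A n) = 0 := by
      intro n
      have h5 := hiso (s n)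
      rw [Isom, hρA n, transpose_add, transpose_one, transpose_smul] at h5
      have h6 : (ℓ : ℚ_[ℓ]) ^ n • ((A n)ᵀ * B + B * A n + (ℓ : ℚ_[ℓ]) ^ n • ((A n)ᵀ * B * A n)) = 0 := by
        have h7 : (1 + (ℓ : ℚ_[ℓ]) ^ n • (A n)ᵀ) * B * (1 + (ℓ : ℚ_[ℓ]) ^ n • A n) =
            B + (ℓ : ℚ_[ℓ]) ^ n • ((A n)ᵀ * B + B * A n + (ℓ : ℚ_[ℓ]) ^ n • ((A n)ᵀ * B * A n)) := by
          simp only [add_mul, mul_add, one_mul, mul_one, smul_mul_assoc, mul_smul_comm, smul_add,
            smul_smul]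
          abel
        rw [h7] at h5
        simpa using h5
      rcases smul_eq_zero.1 h6 with h7 | h7
      · exact absurd h7 (pow_ne_zero _ hℓ0)
      · exact h7
    have h5 : Tendsto (fun n => (A n)ᵀ * B + B * A n + (ℓ : ℚ_[ℓ]) ^ n • ((A n)ᵀ * B * A n)) atTop
        (𝓝 (Tᵀ * B + B * T + (0 : ℚ_[ℓ]) • (Tᵀ * B * T))) := by
      have hsT : Tendsto (fun n => (A n)ᵀ) atTop (𝓝 Tᵀ) :=
        (continuous_id.matrix_transpose.tendsto T).comp hs
      have ha : Tendsto (fun n => (A n)ᵀ * B) atTop (𝓝 (Tᵀ * B)) := hsT.mul tendsto_const_nhds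
      have hb : Tendsto (fun n => B * A n) atTop (𝓝 (B * T)) := tendsto_const_nhds.mul hs
      exact (ha.add hb).add (hlim0.smul (ha.mul hs))
    simp_rw [h4] at h5
    have h6 := tendsto_nhds_unique h5 tendsto_const_nhds
    rw [zero_smul, add_zero] at h6
    rw [Skew, transpose_mul, hBs]
    exact eq_neg_of_add_eq_zero_left h6
  -- the characteristic polynomial of `T`
  obtain ⟨q, hq⟩ : ∃ q : ℚ_[ℓ][X], T.charpoly = X * q := by
    have h4 : T.charpoly.IsRoot 0 := by
      rw [IsRoot.def, eval_charpoly]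
      apply Matrix.exists_mulVec_eq_zero_iff.1
      refine ⟨y, hy.1, ?_⟩
      rw [map_zero, zero_sub, neg_mulVec, hy.2.1, neg_zero]
    obtain ⟨q, hq⟩ := dvd_iff_isRoot.2 h4
    exact ⟨q, by rw [hq, map_zero, sub_zero]⟩
  have hq0 : q.eval 0 ≠ 0 := h2 ℚ_[ℓ] N B T y q hBs hB hskew hy hyy hq
  have hqsq : IsSquare (q.eval 0 * bil B y y * B.det) := h1 ℚ_[ℓ] N hN B T y q hBs hskew hy.2.1 hq
  have hqd : (derivative T.charpoly).eval 0 = q.eval 0 := by
    rw [hq]
    simp [derivative_mul]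
  -- the invariant
  set φ : Matrix (Fin N) (Fin N) ℚ_[ℓ] → ℚ_[ℓ] := fun h =>
    -(1 / 2) * (derivative h.charpoly).eval 1 * h.charpoly.eval (-1) with hφ
  have hφc : Continuous φ := by
    have ha := continuous_eval_derivative_charpoly (K := ℚ_[ℓ]) (N := N) 1
    have hb := continuous_eval_charpoly (K := ℚ_[ℓ]) (N := N) (-1)
    exact (continuous_const.mul ha).mul hb
  obtain ⟨m, hm⟩ := hN
  -- the open set
  set O : Set G := {σ | (∀ i j, ‖(ρ σ - 1) i j‖ < ((ℓ : ℝ) ^ 2)⁻¹) ∧ (ρ σ).det ≠ -1 ∧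
    φ (ρ σ) * q.eval 0 ∈ {z : ℚ_[ℓ] | z ≠ 0 ∧ IsSquare z}} with hO
  have hNo : Odd N := ⟨m, hm⟩
  refine ⟨O, ?_, ?_, ?_⟩
  · -- open
    rw [hO]
    simp only [Set.ofPred_and]
    refine IsOpen.inter ?_ (IsOpen.inter ?_ ?_)
    · have h4 : {σ : G | ∀ i j, ‖(ρ σ - 1) i j‖ < ((ℓ : ℝ) ^ 2)⁻¹} =
          ⋂ i, ⋂ j, {σ : G | ‖(ρ σ - 1) i j‖ < ((ℓ : ℝ) ^ 2)⁻¹} := by
        ext σ; simp
      rw [h4]
      refine isOpen_iInter_of_finite fun i => isOpen_iInter_of_finite fun j => ?_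
      refine isOpen_lt ?_ continuous_const
      exact ((hρ.sub continuous_const).matrix_elem i j).norm
    · exact isOpen_ne.preimage hρ.matrix_det
    · exact isOpen_sq.preimage ((hφc.comp hρ).mul continuous_const)
  · -- nonempty
    have e1 : ∀ᶠ n in atTop, ∀ i j, ‖(ρ (s n) - 1) i j‖ < ((ℓ : ℝ) ^ 2)⁻¹ := by
      rw [eventually_all]
      intro i
      rw [eventually_all]
      intro j
      have h4 : Tendsto (fun n => ‖(ρ (s n) - 1) i j‖) atTop (𝓝 0) := by
        have h5 : Continuous fun M : Matrix (Fin N) (Fin N) ℚ_[ℓ] => ‖(M - 1) i j‖ :=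
          ((continuous_id.sub continuous_const).matrix_elem i j).norm
        have h6 := (h5.tendsto 1).comp hlim1
        have h7 : ‖((1 : Matrix (Fin N) (Fin N) ℚ_[ℓ]) - 1) i j‖ = 0 := by simp
        rw [h7] at h6
        exact h6
      refine h4.eventually_lt_const ?_
      have : (0 : ℝ) < ℓ := by exact_mod_cast (Fact.out : ℓ.Prime).pos
      positivity
    have e2 : ∀ᶠ n in atTop, (ρ (s n)).det ≠ -1 := by
      have h4 : Tendsto (fun n => (ρ (s n)).det) atTop (𝓝 1) := by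
        have h5 : Continuous fun M : Matrix (Fin N) (Fin N) ℚ_[ℓ] => M.det :=
          continuous_id.matrix_det
        have h6 := (h5.tendsto 1).comp hlim1
        rw [det_one] at h6
        exact h6
      refine h4.eventually_ne ?_
      intro h5
      have h6 : (2 : ℚ_[ℓ]) = 0 := by linear_combination h5
      exact two_ne_zero h6
    have e3 : ∀ᶠ n in atTop, φ (ρ (s n)) * q.eval 0 ∈ {z : ℚ_[ℓ] | z ≠ 0 ∧ IsSquare z} := by
      set c : ℕ → ℚ_[ℓ] := fun n => (derivative (A n).charpoly).eval 0 * q.eval 0 *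
        (-(1 / 2) * (ρ (s n)).charpoly.eval (-1)) with hc
      have hclim : Tendsto c atTop (𝓝 (q.eval 0 * q.eval 0 *
          (-(1 / 2) * (1 : Matrix (Fin N) (Fin N) ℚ_[ℓ]).charpoly.eval (-1)))) := by
        refine Tendsto.mul (Tendsto.mul ?_ tendsto_const_nhds)
          (Tendsto.mul tendsto_const_nhds ?_)
        · rw [← hqd]
          exact ((continuous_eval_derivative_charpoly 0).tendsto T).comp hs
        · exact ((continuous_eval_charpoly (-1)).tendsto 1).comp hlim1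
      have hlimval : q.eval 0 * q.eval 0 *
          (-(1 / 2) * (1 : Matrix (Fin N) (Fin N) ℚ_[ℓ]).charpoly.eval (-1)) =
          (q.eval 0 * 2 ^ m) * (q.eval 0 * 2 ^ m) := by
        have h4 : (1 : Matrix (Fin N) (Fin N) ℚ_[ℓ]).charpoly.eval (-1) = (-2) ^ N := by
          rw [eval_charpoly]
          have h5 : (Matrix.scalar (Fin N)) (-1 : ℚ_[ℓ]) - 1 = (-2 : ℚ_[ℓ]) • (1 : Matrix _ _ ℚ_[ℓ]) := by
            ext i j
            by_cases hij : i = j
            · subst hij; simp; norm_num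
            · simp [hij]
          rw [h5, det_smul, Fintype.card_fin, det_one, mul_one]
        rw [h4, hm, pow_add, pow_mul, pow_one]
        have h6 : (-2 : ℚ_[ℓ]) ^ 2 = 2 ^ 2 := by norm_num
        rw [h6, ← pow_mul, two_mul, pow_add]
        ring
      rw [hlimval] at hclim
      have hmem : (q.eval 0 * 2 ^ m) * (q.eval 0 * 2 ^ m) ∈ {z : ℚ_[ℓ] | z ≠ 0 ∧ IsSquare z} := by
        have : q.eval 0 * 2 ^ m ≠ 0 := mul_ne_zero hq0 (pow_ne_zero _ two_ne_zero)
        exact ⟨mul_ne_zero this this, _, rfl⟩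
      have h4 := hclim.eventually (isOpen_sq.mem_nhds hmem)
      filter_upwards [h4] with n hn
      obtain ⟨hn0, b, hb⟩ := hn
      have h5 : φ (ρ (s n)) * q.eval 0 = ((ℓ : ℚ_[ℓ]) ^ n) ^ (2 * m) * c n := by
        have h6 := charpoly_scale (A n) ((ℓ : ℚ_[ℓ]) ^ n)
        rw [← hρA n] at h6
        have h8 : ((ℓ : ℚ_[ℓ]) ^ n) ^ N = ((ℓ : ℚ_[ℓ]) ^ n) ^ (2 * m) * (ℓ : ℚ_[ℓ]) ^ n := by
          rw [← pow_succ, ← hm]
        rw [h8] at h6
        have h7 : (derivative (ρ (s n)).charpoly).eval 1 =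
            ((ℓ : ℚ_[ℓ]) ^ n) ^ (2 * m) * (derivative (A n).charpoly).eval 0 := by
          apply mul_left_cancel₀ (pow_ne_zero n hℓ0)
          rw [h6]
          ring
        rw [hφ, hc]
        simp only
        rw [h7]
        ring
      rw [h5]
      refine ⟨mul_ne_zero (pow_ne_zero _ (pow_ne_zero _ hℓ0)) hn0, ((ℓ : ℚ_[ℓ]) ^ n) ^ m * b, ?_⟩
      rw [hb, two_mul, pow_add]
      ring
    obtain ⟨n, hn1, hn2, hn3⟩ := (e1.and (e2.and e3)).exists
    exact ⟨s n, hn1, hn2, hn3⟩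
  · -- the properties
    rintro σ ⟨hσ1, hσ2, hσ3, hσ4⟩
    have hdet : (ρ σ).det = 1 := (det_sq_of_isom hB (hiso σ)).resolve_right hσ2
    have h0 : (1 - ρ σ).det = 0 := det_one_sub_of_isom hNo hB (hiso σ) hdet
    obtain ⟨Q, hQ, hQ1, hQ2⟩ := charpoly_factor h0
    have hφQ : φ (ρ σ) = Q.eval 1 * Q.eval (-1) := by
      rw [hφ]
      simp only
      rw [hQ1, hQ2]
      ring
    rw [hφQ] at hσ3 hσ4
    have hne : Q.eval 1 * Q.eval (-1) ≠ 0 := left_ne_zero_of_mul hσ3
    refine ⟨Q, hQ, hne, ?_, ?_⟩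
    · have h4 := (hσ4.mul hqsq).div (IsSquare.mul_self (q.eval 0))
      have h5 : Q.eval 1 * Q.eval (-1) * q.eval 0 * (q.eval 0 * bil B y y * B.det) /
          (q.eval 0 * q.eval 0) = Q.eval 1 * Q.eval (-1) * bil B y y * B.det := by
        field_simp
      rwa [h5] at h4
    · intro n hn
      refine coprime_of_fixed hQ (left_ne_zero_of_mul hne) ?_ n hn
      intro k hk x hx
      refine (h3 ℓ N G ρ σ (fun i j => (hσ1 i j).le)).2 k hk x ?_
      rw [map_pow]
      exact hx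

end main

end Pool.Agent.Y815.ZO
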